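import Pool.Agent.helper97.NA.SpecE

/-!
# Row nx:XMN of MP_baa4d7_al
-/

set_option autoImplicit false

namespace Pool.Agent.NAB

open Pool.Agent.helper58.DC Pool.Agent.DI Pool.Agent.GR Pool.Agent.OB Pool.Agent.DR Pool.Agent.FI Pool.Agent.FI3 Pool.Agent.FI4 Pool.Agent.FI4I Pool.Agent.FI4E Pool.Agent.LE Pool.Agent.L5

/-- `O_p(G)` exists. -/
theorem XMN_op (p : ℕ) (hp : p.Prime) (G : Type) [Group G] [Finite G] : ∃ R : Subgroup G, IsOp p (⊤ : Subgroup G) R := by
  classical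
  have _ : Fact p.Prime := ⟨hp⟩
  obtain ⟨R, hR, hmax⟩ := Set.exists_max_image {Q : Subgroup G | Q ≤ ⊤ ∧ IsPGroup p Q ∧ (⊤ : Subgroup G) ≤ Subgroup.normalizer (Q : Set G)}
    (fun Q => Nat.card Q) (Set.toFinite _) ⟨⊥, le_top, IsPGroup.of_bot, by
      rw [top_le_iff, Subgroup.normalizer_eq_top_iff]
      infer_instance⟩
  refine ⟨R, hR, fun Q hQ => ?_⟩
  obtain ⟨-, hQp, hQn⟩ := hQ
  obtain ⟨-, hRp, hRn⟩ := hR
  rw [top_le_iff, Subgroup.normalizer_eq_top_iff] at hQn hRn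
  have hsup : Nat.card (Q ⊔ R : Subgroup G) ≤ Nat.card R := by
    refine hmax (Q ⊔ R) ⟨le_top, IsPGroup.to_sup_of_normal_right hQp hRp, ?_⟩
    rw [top_le_iff, Subgroup.normalizer_eq_top_iff]
    infer_instance
  have heq : R = Q ⊔ R := Subgroup.eq_of_le_of_card_ge le_sup_right hsup
  rw [heq]
  exact le_sup_left

theorem XMN_nz {G : Type} [Group G] {E : Subgroup G} {g : G} (h : cjS g E = E) : g ∈ nz E := by
  rw [Subgroup.mem_normalizer_iff]
  intro x
  have h1 : g * x * g⁻¹ ∈ cjS g E ↔ x ∈ E := by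
    rw [mem_cjS]
    have h2 : g⁻¹ * (g * x * g⁻¹) * g = x := by group
    rw [h2]
  rw [h] at h1
  exact h1.symm

theorem XMN_pow {G : Type} [Group G] {E : Subgroup G} {α : MulAut G} (h : am α E = E) (j : ℕ) : am (α ^ j) E = E := by
  induction j with
  | zero => rw [pow_zero, am_one]
  | succ j ih => rw [pow_succ, am_mul, h, ih]

theorem XMN_one {G : Type} [Group G] (p : ℕ) (K : Subgroup G) (S : Set (G → ℂ)) : tS p K S 1 = ∑ᶠ ψ ∈ S, EE p K ψ ψ := by
  unfold tS
  refine finsum_congr fun ψ => finsum_congr fun _ => ?_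
  rfl

theorem XMN (hXTN : XTN_stmt) (hXDV : XDV_stmt) (hXMF : XMF_stmt) (hXUA : XUA_stmt) (hXTB : XTB_stmt) (hNBP : NBP_stmt) (hNXU : NXU_stmt) (hNQU : NQU_stmt) (hNEG : NEG_stmt) (hTSI : TSI_stmt) (hBAA : BAA_stmt) (hPRO5 : PRO5_stmt) (hEJ5 : EJ5_stmt) (hMLT5 : MLT5_stmt) (hFIN5 : FIN5_stmt) (hFBC : FBC_stmt) (hNBC : NBC_stmt) (hTPR : FI.TPR_stmt) (hOUP5 : OUP5_stmt) : XMN_stmt := by
  have _ := hOUP5
  intro p e m M hS c v n hc hmc hn hpn hJ G₀ _ _
  have hbz : 1 ≤ bz p := by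
    unfold bz
    split_ifs <;> omega
  have hme : m < e := by omega
  have hbe : bz p ≤ e := by omega
  suffices K : ∀ k : ℕ, ∀ (G : Type) [Group G] [Finite G], Nat.card G = k → XMc p e m n M G from K _ G₀ rfl
  intro k
  induction k using Nat.strong_induction_on with
  | _ k ih =>
    intro G _ _ hcard χ hχ z x U α hαE hα hαn
    obtain ⟨R, hRop⟩ := XMN_op p hS.pr G
    have hnR : nz R = ⊤ := top_le_iff.1 hRop.1.2.2
    have hRp : IsPGroup p R := hRop.1.2.1
    have baa := fun (β : MulAut G) (P : Subgroup G) (η ψ : G → ℂ) => hBAA G M p β P P P η ψ ψ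
    have htop : ∀ β : MulAut G, am β (⊤ : Subgroup G) = ⊤ := fun β => (baa β R χ χ).1.2.2.2.2.2.1
    have hαR : am α R = R := (baa α R χ χ).1.2.2.2.2.2.2.2.2 hRop
    obtain ⟨tp1, tp2, -, -, -⟩ := hTPR p M hS G
    have hχt : χ ∈ IrrOn (⊤ : Subgroup G) := by
      rw [tp1]
      exact hχ
    obtain ⟨-, -, ng3, -, -, -, -⟩ := hNEG p e hS.pr G z
    have hnzE : ∀ β : MulAut G, am β (Eg p e z) = Eg p e z → am β (nz (Eg p e z)) = nz (Eg p e z) := fun β hβ => by
      have h1 := (baa β (Eg p e z) χ χ).1.2.1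
      rw [hβ] at h1
      exact h1.symm
    by_cases hER : Eg p e z ≤ R
    · exact hXMF p e m M hS hme G χ hχ z x U R hRp hnR hER α hαR hαE hα
    · have hzR : z ^ p ^ (e - 1) ∉ R := fun h => hER ((ng3 R).2 h)
      -- powers
      have hSBpow : ∀ j : ℕ, SB M (⊤ : Subgroup G) (funMap (α ^ j) χ) χ := by
        intro j
        induction j with
        | zero =>
          rw [pow_zero]
          exact SB.refl _ _
        | succ j ihj =>
          rw [pow_succ', FI4E.funMap_mul]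
          have h1 := ((hBAA G M p α ⊤ ⊤ ⊤ (funMap (α ^ j) χ) χ χ).2.2.2.1).1 ihj
          rw [htop α] at h1
          exact h1.trans ((tp2 _ _).1 hα)
      obtain ⟨k', g, hkg, hkl⟩ := hPRO5 G α n hn hαn
      have hα'E : am (α ^ k') (Eg p e z) = Eg p e z := XMN_pow hαE k'
      have hgE : g ∈ nz (Eg p e z) := by
        apply XMN_nz
        have h1 := hα'E
        rw [hkg, am_al, hαE] at h1
        exact h1
      have hBlsub : Bl M (⊤ : Subgroup G) χ ⊆ IrrOn (⊤ : Subgroup G) := fun ψ hψ => hψ.1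
      have eL : tE p M (⊤ : Subgroup G) χ α = tE p M (⊤ : Subgroup G) χ (α ^ k') := by
        rw [hkg]
        exact ((hTSI p G ⊤ α (htop α) g (Subgroup.mem_top g)).2 _ hBlsub).symm
      obtain ⟨-, xtb2, xtb3, -⟩ := hXTB p e m M hS G (⊤ : Subgroup G) (nz (Eg p e z)) (Eg p e z) χ α
      have eR : tB p e m M (⊤ : Subgroup G) (nz (Eg p e z)) (Eg p e z) χ α =
          tB p e m M (⊤ : Subgroup G) (nz (Eg p e z)) (Eg p e z) χ (α ^ k') := by
        rw [hkg]
        exact (xtb2 (hnzE α hαE) g hgE).symm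
      rw [eL, eR]
      obtain ⟨N, hN⟩ : ∃ N : ℕ, N = orderOf (α ^ k') := ⟨_, rfl⟩
      have hNpos : 0 < N := by
        rw [hN]
        exact orderOf_pos _
      rw [← hN] at hkl
      have hej : ∀ m' : ℕ, 0 < m' → m' ∣ N → ¬ p ∣ m' ∧ ¬ p ^ (v + 1) ∣ Pool.Agent.MAPW.J2 m' := fun m' hm hmN =>
        hEJ5 p n m' (v + 1) hS.pr hn hm hpn (fun l hl hlm => hkl l hl (hlm.trans hmN)) hJ
      -- the congruences
      have hcong : ∀ j : ℕ, ∃ m' : ℤ, tE p M (⊤ : Subgroup G) χ ((α ^ k') ^ j) -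
          tB p e m M (⊤ : Subgroup G) (nz (Eg p e z)) (Eg p e z) χ ((α ^ k') ^ j) = (p : ℂ) ^ c * m' := by
        intro j
        have hβE : am ((α ^ k') ^ j) (Eg p e z) = Eg p e z := XMN_pow hα'E j
        have hStb : Stb M χ ((α ^ k') ^ j) := by
          have h1 := hSBpow (k' * j)
          rw [pow_mul] at h1
          exact (tp2 _ _).2 h1
        have hord : orderOf ((α ^ k') ^ j) ∣ N := by
          rw [hN]
          exact orderOf_pow_dvd j
        obtain ⟨hj1, hj2⟩ := hej _ (orderOf_pos _) hord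
        have hinn : ∃ y : G, ((α ^ k') ^ j) ^ n = MulAut.conj y := by
          obtain ⟨y, hy⟩ := hαn
          refine ⟨y ^ (k' * j), ?_⟩
          have e0 : ((α ^ k') ^ j) ^ n = (α ^ n) ^ (k' * j) := by
            rw [← pow_mul, ← pow_mul, ← pow_mul]
            congr 1
            ring
          rw [e0, hy, map_pow]
        have h1 := hXTN p e m n M hS hme G χ hχ z x U R hRop hER ((α ^ k') ^ j) hβE hinn (fun N' hN' => by
          refine ih (Nat.card N') ?_ N' rfl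
          rw [← hcard]
          have h2 : Nat.card N' ≤ Nat.card G := Subgroup.card_le_card_group N'
          refine lt_of_le_of_ne h2 fun h3 => hN' ?_
          exact Subgroup.eq_top_of_card_eq N' h3)
        obtain ⟨m', hm⟩ := hXDV p e m M hS hme c v hc G χ hχ z x U R hRop hzR ((α ^ k') ^ j) hStb hj1 hj2
        refine ⟨m', ?_⟩
        rw [h1] at hm
        have hG0 : (Nat.card G : ℂ) ≠ 0 := by exact_mod_cast Nat.card_pos.ne'
        refine mul_left_cancel₀ hG0 ?_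
        rw [hm]
        ring
      -- the multiplicities
      have hζ := Complex.isPrimitiveRoot_exp N hNpos.ne'
      have hpow : (α ^ k') ^ N = 1 := by
        rw [hN]
        exact pow_orderOf_eq_one _
      have hBC1 : BC M (⊤ : Subgroup G) (Bl M (⊤ : Subgroup G) χ) := (hFBC p M hS G ⊤ χ 1).1
      have hBC2 : BC M (nz (Eg p e z)) (BE p e m M (⊤ : Subgroup G) (nz (Eg p e z)) (Eg p e z) χ) :=
        (hNBC p e m M hS G ⊤ (nz (Eg p e z)) (Eg p e z) le_top χ).2.2
      have hne1 : (Bl M (⊤ : Subgroup G) χ).Nonempty := ⟨χ, hχt, SB.refl _ _⟩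
      obtain ⟨η, hη⟩ : ∃ η : G → ℂ, η ∈ BE p e m M (⊤ : Subgroup G) (nz (Eg p e z)) (Eg p e z) χ := by
        have h1 := hNXU p e m M hS hme G ⊤ χ hχt z x U
        rw [top_inf_eq] at h1
        exact h1
      have hne2 : (BE p e m M (⊤ : Subgroup G) (nz (Eg p e z)) (Eg p e z) χ).Nonempty := ⟨η, hη⟩
      have hst1 : ∀ ψ ∈ Bl M (⊤ : Subgroup G) χ, funMap (α ^ k') ψ ∈ Bl M (⊤ : Subgroup G) χ := by
        rintro ψ ⟨hψ1, hψ2⟩
        have b := hBAA G M p (α ^ k') ⊤ ⊤ ⊤ ψ χ χ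
        have b' := hBAA G M p (α ^ k') ⊤ ⊤ ⊤ ψ ψ χ
        have h1 := b'.2.2.1.1 hψ1
        have h2 := b.2.2.2.1.1 hψ2
        rw [htop] at h1 h2
        exact ⟨h1, h2.trans (hSBpow k')⟩
      have hst2 := (hXUA p e m M hS G (α ^ k')).2.2.1 ⊤ (nz (Eg p e z)) (Eg p e z) χ (htop _) (hnzE _ hα'E) hα'E (hSBpow k')
      obtain ⟨m1, m10, hm1⟩ := hMLT5 p M hS G ⊤ (Bl M ⊤ χ) hBC1 hne1 (α ^ k') (htop _) hst1 N hNpos hpow _ hζ
      obtain ⟨m2, m20, hm2⟩ := hMLT5 p M hS G (nz (Eg p e z)) (BE p e m M (⊤ : Subgroup G) (nz (Eg p e z)) (Eg p e z) χ) hBC2 hne2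
        (α ^ k') (hnzE _ hα'E) hst2 N hNpos hpow _ hζ
      have hple : p ^ (2 * m + bz p) ≤ p ^ c := Nat.pow_le_pow_right hS.pr.pos hmc
      have hs1 : ∑ i ∈ Finset.range N, m1 i ≤ p ^ c := by
        obtain ⟨l, hl, -, hlp⟩ := hNBP p e m M hS hbe G ⊤ χ hχt z x U
        have h2 := hm1 0
        rw [pow_zero, XMN_one] at h2
        have h3 : ((∑ i ∈ Finset.range N, m1 i : ℕ) : ℂ) = l := by
          rw [← hl]
          unfold Le
          rw [h2]
          push_cast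
          refine Finset.sum_congr rfl fun i _ => ?_
          rw [mul_zero, pow_zero, mul_one]
        have h4 : ∑ i ∈ Finset.range N, m1 i = l := by exact_mod_cast h3
        rw [h4]
        exact hlp.trans hple
      have hs2 : ∑ i ∈ Finset.range N, m2 i ≤ p ^ c := by
        obtain ⟨hη1, -, z', x', U', -⟩ := id hη
        obtain ⟨l, hl, -, hlp⟩ := hNBP p e m M hS hbe G (nz (Eg p e z)) η hη1 z' x' U'
        have h0 := hNQU p e m M hS hme G ⊤ (Eg p e z) χ hχt η (by rw [top_inf_eq]; exact hη)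
        rw [top_inf_eq] at h0
        have h2 := hm2 0
        rw [pow_zero] at h2
        have h5 : tS p (nz (Eg p e z)) (BE p e m M (⊤ : Subgroup G) (nz (Eg p e z)) (Eg p e z) χ) 1 =
            lE p e m M (⊤ : Subgroup G) (nz (Eg p e z)) (Eg p e z) χ := xtb3
        rw [h5, h0.2, hl] at h2
        have h3 : ((∑ i ∈ Finset.range N, m2 i : ℕ) : ℂ) = l := by
          rw [h2]
          push_cast
          refine Finset.sum_congr rfl fun i _ => ?_
          rw [mul_zero, pow_zero, mul_one]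
        have h4 : ∑ i ∈ Finset.range N, m2 i = l := by exact_mod_cast h3
        rw [h4]
        exact hlp.trans hple
      have hfin := hFIN5 p c N hS.pr hNpos (hej N hNpos dvd_rfl).1 _ hζ m1 m2 hs1 hs2 m10 m20 (fun j => by
        obtain ⟨m', hm⟩ := hcong j
        refine ⟨m', ?_⟩
        rw [← hm1 j, ← hm2 j]
        exact hm)
      have e1 := hm1 1
      have e2 := hm2 1
      rw [pow_one] at e1 e2
      show tS p ⊤ (Bl M ⊤ χ) (α ^ k') = tS p (nz (Eg p e z)) (BE p e m M (⊤ : Subgroup G) (nz (Eg p e z)) (Eg p e z) χ) (α ^ k')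
      rw [e1, e2]
      exact Finset.sum_congr rfl fun i hi => by rw [hfin i (Finset.mem_range.1 hi)]

end Pool.Agent.NAB
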